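import Pool.Agent.TH540.Coniveau

/-!
# The generalized Tate conjecture for Fermat varieties of prime degree: coniveau one third

Let `l` be a prime different from the prime `p`, let `f` be the order of `p` modulo `l` and let `X`
be the Fermat variety of degree `l` and dimension `i` over a finite field of characteristic `p`
containing the roots of unity of order `l`. The primitive part of `H ^ i (X)` splits into
eigenlines `V(s)`, indexed by the lists `s` of `i + 2` nonzero residues modulo `l` with sum zero.
By Shioda and Katsura `V(e + e') = V(e) ⊗ V(e') (-1)` through algebraic correspondences. So if `s` is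
equivalent, up to algebraic classes, to a union of `ν + 1` lists `e` with sum zero, then `V(s)` is
the tensor product of the `V(e)`, twisted by `-ν`, that is, a piece of the cohomology in degree
`i - 2 * ν` of a product of Fermat varieties of total dimension `i - 2 * ν`. Then `V(s)` has
coniveau at least `ν`.

We prove that this happens for all `s` and all `ν ≤ (i - 1) / 3`, if `(l - f) ^ 3 < f ^ 4`: in that
range of `ν` the coniveau filtration of `H ^ i (X)` is everything, and the generalized Tate
conjecture holds. If `l` is congruent to three modulo four and `p` generates the squares modulo `l`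
we prove it for all `ν`, for the `s` for which the difference between the numbers of squares and
nonsquares in `s` is at most `3 * (i - 2 * ν)`. For `l = 7` these are all eigenlines allowed by
the generalized Tate conjecture.
-/

namespace Pool.Agent.Results.MP_8abef2_ag.ConiveauPrimeDegree

open Pool.Agent.H916T

/-- There are `ν + 1` lists of at least `c` nonzero residues modulo `l`, each with sum zero, together
having as many entries as `s`, such that `s` and the negatives of these entries form a character
which, in degree `N * l`, is generated by the Tate characters of Fermat surfaces. -/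
def Decomposes (p l N c ν : ℕ) (s : Multiset (ZMod l)) : Prop :=
  ∃ E : Multiset (Multiset (ZMod l)), Multiset.card E = ν + 1 ∧
    (∀ e ∈ E, (0 : ZMod l) ∉ e ∧ e.sum = 0 ∧ c ≤ Multiset.card e) ∧
    Multiset.card E.join = Multiset.card s ∧
    Generated (N * l) (SurfaceTate p (N * l))
      ((s + E.join.map Neg.neg).map fun a => ((N * a.val : ℕ) : ZMod (N * l)))

/-- The number of squares in `s` minus the number of nonsquares in `s`. -/
noncomputable def difference (l : ℕ) [Fact l.Prime] (s : Multiset (ZMod l)) : ℤ :=
  (s.map fun a => quadraticChar (ZMod l) a).sum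

theorem result (p l : ℕ) [hl : Fact l.Prime] (hp : p.Prime) (hpl : p ≠ l)
    (hf : (l - orderOf (p : ZMod l)) ^ 3 < orderOf (p : ZMod l) ^ 4) :
    ∃ N : ℕ, 0 < N ∧ p.Coprime N ∧ ∀ s : Multiset (ZMod l), (0 : ZMod l) ∉ s → s.sum = 0 →
      (∀ ν : ℕ, 3 * (ν + 1) ≤ Multiset.card s → Decomposes p l N 3 ν s) ∧
      (l % 4 = 3 → 2 * orderOf (p : ZMod l) = l - 1 →
        ∀ ν : ℕ, |difference l s| + 6 * (ν + 1) ≤ 3 * Multiset.card s →
          Decomposes p l N 2 ν s) := by
  have hpm : p.Coprime l := (Nat.coprime_primes hp hl.out).mpr hpl
  have hp0 : (p : ZMod l) ≠ 0 := by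
    rw [Ne, ZMod.natCast_eq_zero_iff]
    exact hl.out.coprime_iff_not_dvd.mp (Nat.coprime_comm.mp hpm)
  obtain ⟨N, hN, hpN, hgen⟩ := H916T.main p l l 1 hp hl.out (Or.inl (pow_one l).symm) hpm
  have hT := TH540.trip_of_lt p hp0 hf
  refine ⟨N, hN, hpN, fun s h0 hs => ?_⟩
  have key : ∀ (E : Multiset (Multiset (ZMod l))) (c : ℕ), s ≠ 0 →
      (∀ e ∈ E, (0 : ZMod l) ∉ e ∧ e.sum = 0 ∧ c ≤ Multiset.card e) →
      Multiset.Rel (TH540.Fr p) s E.join →
      Generated (N * l) (SurfaceTate p (N * l))
        ((s + E.join.map Neg.neg).map fun a => ((N * a.val : ℕ) : ZMod (N * l))) := by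
    intro E c hne hE hrel
    have htate := TH540.isTate_rel hpm hrel h0 (TH540.rel_zero_not_mem hp0 hrel h0) hs
      (TH540.join_sum_zero fun e he => (hE e he).2.1)
    have h1 := hgen _ htate (by
      intro h
      apply hne
      rw [← Multiset.card_eq_zero] at h ⊢
      rw [Multiset.card_add] at h
      omega)
    have hbase : ∀ t, Base p l l (N * l) t → SurfaceTate p (N * l) t := by
      intro t ht
      rcases ht with ht | ⟨ht, _⟩
      · exact ht
      · exfalso
        have h2 := Nat.le_of_dvd hl.out.pos ht
        have h3 := hl.out.two_le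
        nlinarith
    have mono : ∀ t, Generated (N * l) (Base p l l (N * l)) t →
        Generated (N * l) (SurfaceTate p (N * l)) t := by
      intro t ht
      induction ht with
      | ofBase s hs => exact Generated.ofBase s (hbase s hs)
      | pair a ha => exact Generated.pair a ha
      | join s t _ _ h1 h2 => exact Generated.join s t h1 h2
      | cancel a s _ h => exact Generated.cancel a s h
    exact mono _ h1
  refine ⟨fun ν hν => ?_, fun hl3 h2 ν hν => ?_⟩
  · obtain ⟨E, e1, e2, e3⟩ := TH540.split hp0 hT ν s hν h0
    refine ⟨E, e1, e2, (Multiset.card_eq_card_of_rel e3).symm, key E 3 ?_ e2 e3⟩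
    rintro rfl
    simp at hν
  · obtain ⟨E, e1, e2, e3⟩ := TH540.level hp0 hT hl3 h2 h0 hν
    refine ⟨E, e1, e2, (Multiset.card_eq_card_of_rel e3).symm, key E 2 ?_ e2 e3⟩
    rintro rfl
    have h3 := abs_nonneg (difference l 0)
    simp only [Multiset.card_zero] at hν
    push_cast at hν
    omega

end Pool.Agent.Results.MP_8abef2_ag.ConiveauPrimeDegree
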