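import Pool.Agent.TH121.GT.Galois

/-!
# MP_8abef2_ag: the generalized Tate conjecture for products

Let `Z` and `U` be smooth projective varieties over an algebraic closure of a finite field of
characteristic `p`. Let `F` and `L` be linearly disjoint fields of algebraic numbers which determine the
slopes (at one place of the algebraic closure of the rational numbers over `p`) of the conjugates of the
eigenvalues of the Frobenius endomorphism on the cohomology of `Z`, respectively `U`: these slopes are not
changed by the automorphisms over `F`, respectively `L`. For example, for an ordinary K3 surface `Z` with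
the Weil number `α` one can take for `F` the image of `ℚ(α)` under the only embedding for which `α` is
small at the place; it is not necessary to pass to the Galois closure. Assume that the smallest slope of
the conjugates of each eigenvalue for `Z` is an integer (for example, that `Z` is ordinary). Nothing like
this is assumed on `U`, and Frobenius need not be semisimple.

Then the generalized Tate conjecture (the geometric and the Galois coniveau filtrations agree, in all
degrees and for the coniveau at most `m`) holds for `Z × U` if and only if it holds for `Z` and `U`.

By induction, this gives the generalized Tate conjecture, in all degrees and for each coniveau, for the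
products of any number of ordinary curves, ordinary K3 surfaces and ordinary surfaces that satisfy the
Tate conjecture, if the slope field of each factor is linearly disjoint from the field generated by the
slope fields of the factors before it, and for the products of such a variety and of any curve, or any
surface that satisfies the Tate conjecture, under the same condition.
-/

set_option autoImplicit false

open CategoryTheory AlgebraicGeometry

universe u v

namespace Pool.Agent.Results.MP_8abef2_ag.DisjointFrobenius

open Pool.Agent.H914 Pool.Agent.H914.VarClass Pool.Agent.H914.VarClass.Obj
  Pool.Agent.H914.WeilCohomology Pool.Agent.W534 Pool.Agent.TH121.KT Pool.Agent.TH121.GT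

/-- **The generalized Tate conjecture for products with linearly disjoint slope fields.** -/
theorem result {k : Type u} [Field k] {𝒱 : VarClass k} {ops : CycleOps 𝒱}
    (W : WeilCohomology.{u, v} ops) [IsAlgClosed W.K] (p : ℕ) [Fact p.Prime] (Φ : FrobSystem W p)
    (ι : AlgebraicClosure ℚ →+* PadicAlgCl p) (Z U : 𝒱.Obj)
    (hZ : IntegralEigenvalues Φ Z) (hU : IntegralEigenvalues Φ U) (hZ₀ : HasZeroCycle Z)
    (hU₀ : HasZeroCycle U) (F L : IntermediateField ℚ (AlgebraicClosure ℚ))
    [FiniteDimensional ℚ F] (hFL : F.LinearDisjoint L) (hF : FrobeniusSlopes Φ ι F Z)
    (hL : FrobeniusSlopes Φ ι L U) (hmin : IntegralMinSlopes Φ ι Z) (m : ℕ) :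
    (∀ c ≤ m, GeneralizedTate Φ (Z.prod U) c) ↔
      (∀ c ≤ m, GeneralizedTate Φ Z c) ∧ (∀ c ≤ m, GeneralizedTate Φ U c) :=
  ⟨fun h => ⟨fun c hc => (tate_factors hZ₀ hU₀ (h c hc)).1,
    fun c hc => (tate_factors hZ₀ hU₀ (h c hc)).2⟩,
    fun h c hc => tate_prod hZ hU hFL hF hL hmin (fun d hd => h.1 d (hd.trans hc))
      fun d hd => h.2 d (hd.trans hc)⟩

end Pool.Agent.Results.MP_8abef2_ag.DisjointFrobenius
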