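import Pool.Agent.TH540.GTCAll

/-!
# The generalized Tate conjecture for Fermat varieties of twenty-one degrees

Let `X` be the Fermat variety of degree `m` and dimension `i` over a finite field `K` of
characteristic `p` which contains the roots of unity of order `m`. The primitive part of `H ^ i (X)`
splits into eigenlines `V(s)`, indexed by the lists `s` of `i + 2` nonzero residues modulo `m` with
sum zero. By Stickelberger's theorem the eigenvalue of Frobenius on `V(s)` and all its conjugates
are divisible by `|K| ^ ν` if and only if `GaloisConiveau p m ν s` holds; so the space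
`N_ℓ ^ ν H ^ i (X)` of the generalized Tate conjecture is the sum of these `V(s)` (and of the
algebraic classes from the ambient space).

By Shioda and Katsura `V(e + e') = V(e) ⊗ V(e') (-1)` through algebraic correspondences. So
`ProductOfCurves p m ν s` says that `V(s)`, twisted by `ν`, is a tensor product of `i - 2 * ν`
eigenlines in the first cohomology groups of Fermat curves, through algebraic correspondences; in
particular `V(s)` has coniveau at least `ν`.

We prove that `GaloisConiveau` implies `ProductOfCurves`, for all `s` and `ν`, if `m` is one of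
`3, ..., 12, 14, 15, 16, 18, 20, 21, 22, 24, 30, 36, 42`, for all `p` prime to `m`: the generalized
Tate conjecture holds for the Fermat varieties of these degrees, in all dimensions. Moreover we
prove it for the divisors of all degrees for which the Tate conjecture for Fermat varieties is known
in every characteristic and for which every function on the units with the properties of the slopes
of a Weil number of weight one is the slope function of an eigenline of the Fermat curve; this is a
finite condition. (For instance degree 13 and 26 if `p` is not congruent to one modulo 13.)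
-/

namespace Pool.Agent.Results.MP_8abef2_ag.GTCSmallDegrees

open Pool.Agent.H916T

/-- For every unit `t` modulo `m` the representatives in `{1, ..., m - 1}` of the residues
`p ^ j * t * a`, where `a ∈ s` and `0 ≤ j < f`, `f` being the order of `p` modulo `m`, have sum at
least `f * m * (ν + 1)`. -/
def GaloisConiveau (p m ν : ℕ) (s : Multiset (ZMod m)) : Prop :=
  ∀ t : (ZMod m)ˣ, orderOf (p : ZMod m) * (m * (ν + 1)) ≤
    ∑ j ∈ Finset.range (orderOf (p : ZMod m)),
      (s.map fun a => ((p : ZMod m) ^ j * ((t : ZMod m) * a)).val).sum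

/-- There are a positive integer `N` prime to `p` and `|s| - 2 - 2 * ν` triples of nonzero residues
modulo `N * m`, each with sum zero, such that `N * s` together with the negatives of the entries of
these triples is a member of the closure of the Tate characters of Fermat surfaces and of the
standard characters of Aoki in degree `N * m`. -/
def ProductOfCurves (p m ν : ℕ) (s : Multiset (ZMod m)) : Prop :=
  ∃ N : ℕ, 0 < N ∧ p.Coprime N ∧ ∃ E : Multiset (Multiset (ZMod (N * m))),
    (∀ e ∈ E, (0 : ZMod (N * m)) ∉ e ∧ e.sum = 0 ∧ Multiset.card e = 3) ∧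
    Multiset.card E + 2 * ν + 2 = Multiset.card s ∧
    Generated (N * m)
      (fun t => SurfaceTate p (N * m) t ∨ ∃ q : ℕ, q.Prime ∧ q ∣ N * m ∧ Standard q (N * m) t)
      ((s.map fun a => ((N * a.val : ℕ) : ZMod (N * m))) + E.join.map Neg.neg)

/-- The generalized Tate conjecture for the Fermat varieties of degree `m` in characteristic `p`. -/
def GTC (p m : ℕ) : Prop := ∀ (ν : ℕ) (s : Multiset (ZMod m)), (0 : ZMod m) ∉ s → s.sum = 0 →
  GaloisConiveau p m ν s → ProductOfCurves p m ν s

/-- The prime divisors of `m` lie in `{2, 3, 5}`, or in `{2, 3, 7}`, or in `{2, q}` for a prime `q`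
congruent to `7` modulo `8`, or `4` does not divide `m` and they lie in `{2, 3, 11}` or in
`{2, 3, 13}`. -/
def GoodDegree (m : ℕ) : Prop :=
  (∀ r : ℕ, r.Prime → r ∣ m → r = 2 ∨ r = 3 ∨ r = 5) ∨
    (∀ r : ℕ, r.Prime → r ∣ m → r = 2 ∨ r = 3 ∨ r = 7) ∨
    (∃ q : ℕ, q.Prime ∧ q % 8 = 7 ∧ ∀ r : ℕ, r.Prime → r ∣ m → r = 2 ∨ r = q) ∨
    (¬ 4 ∣ m ∧ ((∀ r : ℕ, r.Prime → r ∣ m → r = 2 ∨ r = 3 ∨ r = 11) ∨
      ∀ r : ℕ, r.Prime → r ∣ m → r = 2 ∨ r = 3 ∨ r = 13))

/-- Every function `φ` on the units modulo `m` with `φ (p * t) = φ t` and `φ (-t) + φ t = f`, the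
order of `p` modulo `m`, is the slope function of an eigenline of the Fermat curve of degree `m`. -/
def AllCurves (p m : ℕ) : Prop := ∀ φ : (ZMod m)ˣ → ℕ,
  (∀ t, φ (-t) + φ t = orderOf (p : ZMod m)) →
  (∀ t t' : (ZMod m)ˣ, (t' : ZMod m) = (p : ZMod m) * t → φ t' = φ t) →
  ∃ x y z : ZMod m, x ≠ 0 ∧ y ≠ 0 ∧ z ≠ 0 ∧ x + y + z = 0 ∧ ∀ t : (ZMod m)ˣ,
    ∑ j ∈ Finset.range (orderOf (p : ZMod m)), (((p : ZMod m) ^ j * ((t : ZMod m) * x)).val +
      ((p : ZMod m) ^ j * ((t : ZMod m) * y)).val + ((p : ZMod m) ^ j * ((t : ZMod m) * z)).val) =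
      m * (φ t + orderOf (p : ZMod m))

lemma curves_of_all {p m : ℕ} [NeZero m] (hp : p.Coprime m) (h : AllCurves p m) :
    TH540.Curves p m := by
  intro φ hb hpar hneg hinv
  set f := orderOf (p : ZMod m) with hf
  have hg : ∀ t, (2 : ℤ) * (((φ t + f) / 2).toNat : ℤ) = φ t + f := by
    intro t
    have a1 := hb t
    have a2 := hpar t
    rw [abs_le] at a1
    omega
  obtain ⟨x, y, z, hx, hy, hz, hs, H⟩ := h (fun t => ((φ t + f) / 2).toNat) (by
      intro t
      have a1 := hg t
      have a2 := hg (-t)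
      have a3 := hneg t
      omega) (by
      intro t t' ht
      rw [hinv t t' ht])
  refine ⟨x, y, z, hx, hy, hz, hs, fun t => ?_⟩
  have hW : ∀ a : ZMod m, a ≠ 0 → W p ((t : ZMod m) * a) =
      2 * ((∑ j ∈ Finset.range f, ((p : ZMod m) ^ j * ((t : ZMod m) * a)).val : ℕ) : ℤ) -
        f * m := by
    intro a ha
    unfold W
    rw [← hf]
    have h1 : ∀ j ∈ Finset.range f, H916R2.saw ((p : ZMod m) ^ j * ((t : ZMod m) * a)) =
        2 * ((((p : ZMod m) ^ j * ((t : ZMod m) * a)).val : ℕ) : ℤ) - m := by
      intro j _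
      apply H916R2.saw_of_ne_zero
      intro h0
      have h2 := (((isUnit_p hp).pow j).mul_right_eq_zero).mp h0
      exact ha ((t.isUnit.mul_right_eq_zero).mp h2)
    rw [Finset.sum_congr rfl h1, Finset.sum_sub_distrib, ← Finset.mul_sum]
    push_cast
    simp
  rw [hW x hx, hW y hy, hW z hz]
  have h1 := H t
  rw [Finset.sum_add_distrib, Finset.sum_add_distrib] at h1
  have h2 := congrArg (Nat.cast : ℕ → ℤ) h1
  simp only [Nat.cast_add, Nat.cast_mul] at h2
  have h3 := hg t
  have h4 : φ t = 2 * (((φ t + f) / 2).toNat : ℤ) - f := by omega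
  rw [h4]
  linear_combination 2 * h2

theorem gtc_of {p m : ℕ} [NeZero m] (hp : p.Coprime m)
    (H : ∀ (s : Multiset (ZMod m)) (w : ℕ), (0 : ZMod m) ∉ s → s.sum = 0 → s ≠ 0 →
      2 ∣ Multiset.card s + w →
      (∀ t, |TH540.Wt p s t| ≤ w * (m * orderOf (p : ZMod m))) →
      ∃ N : ℕ, 0 < N ∧ p.Coprime N ∧ TH540.Conc p m N w s) : GTC p m := by
  intro ν s h0 hs hG
  obtain ⟨w, hw, hW⟩ := TH540.galois_bound hp h0 hG
  obtain ⟨N, hN, hpN, hc⟩ := H s w h0 hs (by
    rintro rfl
    simp at hw) (by rw [← hw]; exact ⟨w + ν + 1, by ring⟩) hW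
  obtain ⟨E, e1, e2, e3⟩ := hc (N * m) rfl
  exact ⟨N, hN, hpN, E, e2, by rw [e1, hw], e3⟩

theorem result :
    (∀ p m : ℕ, p.Prime → p.Coprime m →
      m ∈ [3, 4, 5, 6, 7, 8, 9, 10, 11, 12, 14, 15, 16, 18, 20, 21, 22, 24, 30, 36, 42] →
        GTC p m) ∧
    (∀ p m k : ℕ, p.Prime → p.Coprime (k * m) → 3 ≤ k * m → GoodDegree (k * m) →
      AllCurves p (k * m) → GTC p m) := by
  refine ⟨fun p m hpp hp hm => ?_, fun p m k hpp hp hm3 hgood hall => ?_⟩
  · have hm' : m ∈ TH540.listA ∨ m = 11 ∨ m = 21 := by
      simp only [List.mem_cons, List.not_mem_nil, or_false] at hm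
      simp only [TH540.listA, List.mem_cons, List.not_mem_nil, or_false]
      omega
    have hm3 : 3 ≤ m := by
      simp only [List.mem_cons, List.not_mem_nil, or_false] at hm
      omega
    have : NeZero m := ⟨by omega⟩
    exact gtc_of hp fun s w h0 hs hne hpar hW => TH540.conc_all hpp hp hm' h0 hs hne hpar hW
  · have : NeZero m := ⟨by rintro rfl; omega⟩
    have : NeZero (k * m) := ⟨by omega⟩
    have hpm : p.Coprime m := Nat.Coprime.coprime_dvd_right (Dvd.intro_left k rfl) hp
    exact gtc_of hpm fun s w h0 hs hne hpar hW =>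
      TH540.conc_good rfl hpp hp hm3 hgood (curves_of_all hp hall) h0 hs hne hpar hW

end Pool.Agent.Results.MP_8abef2_ag.GTCSmallDegrees
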