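import Mathlib
import Pool.Agent.TH117.GT.Main

/-!
# The generalized Tate conjecture for products with almost all ordinary abelian varieties

Let `g i` (`i` in a finite set `I`) be positive integers and `E` a number field in `ℂ`. For a prime
power `q` let `ordinaryWeilPolys q (g i)` be the set of the characteristic polynomials of Frobenius of
the ordinary abelian varieties of dimension `g i` over the field with `q` elements; by Weil, Honda and
Tate its elements correspond to the isogeny classes.

For all families `f i` in these sets with the exception of a proportion `O (q ^ (-1 / 6) log q)`, the
constant depending only on `g` and `E`, the following holds for all `s > 0`, `Q = q ^ s`, all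
abelian varieties `A` over the field with `Q` elements which are isogenous to products of powers of
abelian varieties coming from the field with `q` elements, with characteristic polynomials `f i`,
and all smooth projective varieties `Y` over the field with `Q` elements such that each eigenvalue
of Frobenius on the cohomology of `Y` has a power in `E` (for example `Y` a point).

Let `N ^ ν` be the geometric coniveau filtration of the cohomology of `Y`, and `N_ℓ ^ ν` the Galois
coniveau filtration: the span of the generalized eigenvectors of Frobenius whose eigenvalue `μ` is such
that `μ / Q ^ ν` is an algebraic integer (`galoisConiveau`). If the generalized Tate conjecture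
`N_ℓ ^ ν ≤ N ^ ν` of Grothendieck holds for `Y`, then it holds for `A × Y`. More precisely, each
element of the step `ν` of the Galois coniveau filtration of `A × Y` is a combination of products of
`k` classes of divisors on `A`, any class on `A`, and a class in the step `ν - k` for `Y`.

The idea of the proof: by a sieve (helper521) almost all families are such that each pair `α`, `q / α`
of roots can be exchanged by a Galois automorphism which fixes all other roots of all the `f i` and
also all elements of `E` (helper484). So, given a place `v` over `p` and a product of roots, no two of
them with product `q`, there is an automorphism over `E` which makes all the factors units at `v`,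
since the abelian varieties are ordinary. If this product times an eigenvalue `ρ` of `Y` is divisible by
`Q ^ m`, it follows that `ρ` is divisible by `Q ^ m` at `v`.
-/

set_option autoImplicit false

namespace Pool.Agent.Results.MP_8abef2_ag.OrdinaryTimesVariety

open Polynomial Pool.Agent.W521.Count Pool.Agent.TH117.GT

/-- `ordinaryWeilPolys q g` is the set of the monic integral polynomials of degree `2 g` with constant
term `q ^ g`, all roots of absolute value `√q` and the coefficient of index `g` prime to `q`. -/
theorem result {I : Type} [Fintype I] (g : I → ℕ) (hg : ∀ i, 0 < g i)
    (E : IntermediateField ℚ ℂ) [FiniteDimensional ℚ E] :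
    ∃ C : ℝ, ∀ q : ℕ, IsPrimePow q →
      (∀ i, (ordinaryWeilPolys q (g i)).Finite ∧ (ordinaryWeilPolys q (g i)).Nonempty) ∧
      ({f : I → ℤ[X] | (∀ i, f i ∈ ordinaryWeilPolys q (g i)) ∧ ¬ GenTateTransfers E q f}.ncard :
        ℝ) ≤ C * (Real.log q * (q : ℝ) ^ (-(1 / 6) : ℝ)) *
          ∏ i, ((ordinaryWeilPolys q (g i)).ncard : ℝ) :=
  count_transfers g hg E

end Pool.Agent.Results.MP_8abef2_ag.OrdinaryTimesVariety
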